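import Pool.Agent.H11.NS.Targets

/-!
# Module U2 of the board ns_modules: finite p-groups of unbounded derived length
-/

set_option autoImplicit false

namespace Pool.Agent.H94.NS

open Pool.Agent.H11.NS
open scoped commutatorElement

section wreath

variable {D Q : Type} [Group D] [Group Q]

/-- the values at `1` of the elements of the base group in a subgroup -/
def lead (S : Subgroup (RegularWreathProduct D Q)) : Subgroup D where
  carrier := {d | ∃ w ∈ S, w.right = 1 ∧ w.left 1 = d}
  one_mem' := ⟨1, S.one_mem, rfl, rfl⟩
  mul_mem' := by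
    rintro a b ⟨w, hw, h1, h2⟩ ⟨u, hu, h3, h4⟩
    refine ⟨w * u, S.mul_mem hw hu, ?_, ?_⟩
    · rw [RegularWreathProduct.mul_right, h1, h3, mul_one]
    · rw [RegularWreathProduct.mul_left]
      simp only [Pi.mul_apply, h1, inv_one, one_mul, h2, h4]
  inv_mem' := by
    rintro a ⟨w, hw, h1, h2⟩
    refine ⟨w⁻¹, S.inv_mem hw, ?_, ?_⟩
    · rw [RegularWreathProduct.inv_right, h1, inv_one]
    · rw [RegularWreathProduct.inv_left]
      simp only [h1, one_mul, Pi.inv_apply, h2]

theorem mem_lead {S : Subgroup (RegularWreathProduct D Q)} {d : D} :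
    d ∈ lead S ↔ ∃ w ∈ S, w.right = 1 ∧ w.left 1 = d := Iff.rfl

theorem derived_le_lead (q : Q) (hq : q ≠ 1) (j : ℕ) :
    derivedSeries D j ≤ lead (derivedSeries (RegularWreathProduct D Q) (j + 1)) := by
  classical
  induction j with
  | zero =>
    intro d _
    rw [mem_lead]
    set f : Q → D := Pi.mulSingle 1 d with hf
    set a : RegularWreathProduct D Q := ⟨f, 1⟩ with ha
    set b : RegularWreathProduct D Q := ⟨1, q⟩ with hb
    refine ⟨⁅a, b⁆, ?_, ?_, ?_⟩
    · rw [derivedSeries_succ, derivedSeries_zero]
      exact Subgroup.commutator_mem_commutator (Subgroup.mem_top _) (Subgroup.mem_top _)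
    · rw [commutatorElement_def]
      simp [RegularWreathProduct.mul_right, RegularWreathProduct.inv_right, ha, hb]
    · rw [commutatorElement_def]
      have h1 : f 1 = d := by simp [hf]
      have h2 : f q⁻¹ = 1 := by
        have h3 : q⁻¹ ≠ 1 := by simpa using hq
        simp [hf, Pi.mulSingle, h3]
      simp [RegularWreathProduct.mul_left, RegularWreathProduct.inv_left,
        RegularWreathProduct.mul_right, RegularWreathProduct.inv_right, ha, hb, h1, h2]
  | succ j ih =>
    rw [derivedSeries_succ, Subgroup.commutator_le]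
    intro x hx y hy
    obtain ⟨w, hw, hw1, hw2⟩ := mem_lead.mp (ih hx)
    obtain ⟨u, hu, hu1, hu2⟩ := mem_lead.mp (ih hy)
    rw [mem_lead]
    refine ⟨⁅w, u⁆, ?_, ?_, ?_⟩
    · rw [derivedSeries_succ]
      exact Subgroup.commutator_mem_commutator hw hu
    · rw [commutatorElement_def]
      simp [RegularWreathProduct.mul_right, RegularWreathProduct.inv_right, hw1, hu1]
    · rw [commutatorElement_def, commutatorElement_def]
      simp [RegularWreathProduct.mul_left, RegularWreathProduct.inv_left,
        RegularWreathProduct.mul_right, RegularWreathProduct.inv_right, hw1, hu1, hw2, hu2]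

end wreath

theorem pf_u2 : T_U2 := by
  intro p hp k
  induction k with
  | zero =>
    refine ⟨Multiplicative (ZMod p), inferInstance, inferInstance, ?_, ?_⟩
    · apply IsPGroup.of_card (n := 1)
      rw [pow_one]
      simp
    · rw [derivedSeries_zero]
      intro h
      have h1 : Nat.card (Multiplicative (ZMod p)) = 1 := by
        rw [← Subgroup.card_top, h]
        simp
      have h2 : Nat.card (Multiplicative (ZMod p)) = p := by simp
      rw [h2] at h1
      exact hp.out.one_lt.ne' h1
  | succ k ih =>
    obtain ⟨Λ, iG, iF, hΛ, hk⟩ := ih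
    refine ⟨RegularWreathProduct Λ (Multiplicative (ZMod p)), inferInstance, ?_, ?_, ?_⟩
    · exact Finite.of_equiv _ (RegularWreathProduct.equivProd Λ (Multiplicative (ZMod p))).symm
    · obtain ⟨n, hn⟩ := (IsPGroup.iff_card (p := p) (G := Λ)).mp hΛ
      apply IsPGroup.of_card (n := n * p + 1)
      rw [RegularWreathProduct.card, hn]
      have h2 : Nat.card (Multiplicative (ZMod p)) = p := by simp
      rw [h2, ← pow_mul, pow_succ]
    · intro h
      apply hk
      have hq : (Multiplicative.ofAdd (1 : ZMod p)) ≠ 1 := by
        intro h1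
        have : (1 : ZMod p) = 0 := by
          have := congrArg Multiplicative.toAdd h1
          simp at this
        exact one_ne_zero this
      have h1 := derived_le_lead (D := Λ) (Multiplicative.ofAdd (1 : ZMod p)) hq k
      rw [h] at h1
      rw [eq_bot_iff]
      refine h1.trans ?_
      intro d hd
      obtain ⟨w, hw, -, hd⟩ := mem_lead.mp hd
      rw [Subgroup.mem_bot] at hw
      rw [Subgroup.mem_bot, ← hd, hw]
      rfl

end Pool.Agent.H94.NS
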